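import Pool.Agent.W869.AU.Final
import Pool.Agent.W869.AU.Glob8

/-!
# A nontrivial automorphism of `P(λ)/I_{κ⁺}` which is trivial on all sets of size `κ⁺`

The statement of the question is equiconsistent with an inaccessible cardinal.

* Let `κ` be an infinite cardinal and `θ > κ` an inaccessible cardinal. Then some forcing notion
  forces `Hypothesis κ θ`. The forcing language is the one of `Pool.Agent.Helper669.Forcing`: a
  sentence is the set of the conditions which force it; `HypothesisN P K L` is the literal
  translation of the proposition `Hypothesis K L` into the forcing language (quantifiers over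
  subsets and functions become quantifiers over names; the index set `Y` and the functions `h` and
  `e` on it are taken in the ground model).
* The first part for the inaccessible cardinal of the next universe, where nothing has to be
  assumed.
* In ZFC: if `L` is a well-ordered set with `Hypothesis K L`, then there are infinite cardinals
  `κ < λ` and a nontrivial automorphism of `P(λ)/I_{κ⁺}` which is trivial on all subsets of `λ` of
  cardinality `κ⁺`.
* In ZFC: if there is such an automorphism then some `θ` with `κ < θ ≤ λ` is inaccessible. So the
  inaccessible cardinal in the first part is necessary; in particular below the first inaccessible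
  cardinal all automorphisms which are trivial on the sets of size `κ⁺` are trivial.

A condition is a permutation `e` of an initial segment of `θ` together with fewer than `θ` many
triples `(u, v, w)` of subsets, where `e` maps `u` to `v` and `w` to `u` up to `κ` many errors; the
sets `u` are prescribed by names. In the extension of conditions the new part of the permutation is
exact for the old triples, up to a change of the permutation at `κ` many points.

The last part is proved by induction on the size of `X` for the sets `X ⊆ λ`: the automorphism is
trivial on `X`. Let `|X| = θ`. If `θ` is singular, the functions for the initial segments are glued;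
maximal disjoint families of sets of size `κ⁺` where the glued function fails are small. If `θ` is
regular and `θ ≤ 2 ^ μ` with `μ < θ`, the points of `X` are coded by subsets of `μ`, and the images
of the `μ` many sets of the code determine the function; again maximal disjoint families of
sets of size `κ⁺` where this fails are smaller than `θ`.
-/

set_option autoImplicit false

universe u

namespace Pool.Agent.Results.MP_9708fd_lc.NontrivialAutomorphism

open Cardinal Pool.Agent.W869.AU

theorem result :
    -- the hypothesis can be forced
    (∀ κ θ : Cardinal.{u}, ℵ₀ ≤ κ → κ < θ → θ.IsInaccessible →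
      ∃ (P : Type u) (_ : Preorder P), Nonempty P ∧
        ∀ p : P, p ∈ HypothesisN P κ.ord.ToType θ.ord.ToType) ∧
    -- the same for the first inaccessible cardinal seen by the next universe
    (∀ κ : Cardinal.{u + 1}, ℵ₀ ≤ κ → κ < Cardinal.univ.{u, u + 1} →
      ∃ (P : Type (u + 1)) (_ : Preorder P), Nonempty P ∧
        ∀ p : P, p ∈ HypothesisN P κ.ord.ToType Cardinal.univ.{u, u + 1}.ord.ToType) ∧
    -- the hypothesis gives an automorphism as in the question
    (∀ (K L : Type u) [LinearOrder L] [WellFoundedLT L], Hypothesis K L →
      ∃ κ lam : Cardinal.{u}, ℵ₀ ≤ κ ∧ κ < lam ∧ ∃ (hμ : ℵ₀ ≤ Order.succ κ)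
        (π : Quo (Order.succ κ) hμ lam.ord.ToType ≃o Quo (Order.succ κ) hμ lam.ord.ToType),
        ¬ IsTrivial π ∧
          ∀ X : Set lam.ord.ToType, #X = Order.succ κ → IsTrivialOn π X) ∧
    -- an automorphism as in the question gives an inaccessible cardinal
    (∀ (κ lam : Cardinal.{u}) (hμ : ℵ₀ ≤ Order.succ κ)
      (π : Quo (Order.succ κ) hμ lam.ord.ToType ≃o Quo (Order.succ κ) hμ lam.ord.ToType),
      ℵ₀ ≤ κ → ¬ IsTrivial π →
      (∀ X : Set lam.ord.ToType, #X = Order.succ κ → IsTrivialOn π X) →
      ∃ θ : Cardinal.{u}, κ < θ ∧ θ ≤ lam ∧ θ.IsInaccessible) :=
  ⟨fun _ _ h1 h2 h3 => forced h1 h2 h3, fun _ h1 h2 => forced h1 h2 IsInaccessible.univ,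
    fun _ _ _ _ h => answer' h, fun κ lam hμ π h1 h2 h3 => by
      obtain ⟨θ, h4, h5, h6⟩ := exists_inaccessible h1 π h3 h2
      exact ⟨θ, h4, h5.trans_eq (Cardinal.mk_ord_toType lam), h6⟩⟩

end Pool.Agent.Results.MP_9708fd_lc.NontrivialAutomorphism
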